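import Pool.Agent.Helper5.FRC.Defs

/-!
# Project FRC (MP_79b960_co), packet BRG
-/

set_option autoImplicit false

namespace Pool.Agent.Helper47.FRC.BRG

open Finset Pool.Agent.Helper5.FRC Pool.Agent.Helper55.FR

theorem inv_back {V : Type} [DecidableEq V] {n : Equiv.Perm V} {S : Finset V} (hS : Inv n S)
    {v : V} (hv : n v ∈ S) : v ∈ S := by
  have h1 : S.image n ⊆ S := by
    intro y hy
    obtain ⟨x, hx, rfl⟩ := mem_image.1 hy
    exact hS x hx
  have h2 : S.image n = S := eq_of_subset_of_card_le h1 (by
    rw [card_image_of_injective _ n.injective])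
  rw [← h2] at hv
  obtain ⟨x, hx, hxv⟩ := mem_image.1 hv
  rwa [← n.injective hxv]

theorem t : Pool.Agent.Helper5.FRC.BrgStmt := by
  intro V _ _ G _ hG n m hC hadj S _ hS _ h1
  obtain ⟨x, hx⟩ := card_eq_one.1 h1
  have hxm : x ∈ S ∧ m x ∉ S := by
    have h : x ∈ S.filter fun x => m x ∉ S := by rw [hx]; exact mem_singleton_self x
    exact mem_filter.1 h
  refine hG s(x, m x) ?_
  rw [SimpleGraph.isBridge_iff]
  have key : ∀ u v : V, (G.deleteEdges {s(x, m x)}).Walk u v → u ∈ S → v ∈ S := by
    intro u v p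
    induction p with
    | nil => exact id
    | cons h p ih =>
      intro hu
      apply ih
      rw [SimpleGraph.deleteEdges_adj] at h
      rcases (hadj _ _).1 h.1 with h2 | h2 | h2
      · rw [h2]
        exact hS _ hu
      · rw [h2] at hu
        exact inv_back hS hu
      · by_contra h3
        rw [h2] at h3
        have h4 : _ ∈ S.filter fun x => m x ∉ S := mem_filter.2 ⟨hu, h3⟩
        rw [hx, mem_singleton] at h4
        apply h.2
        rw [h2, h4]
        exact Set.mem_singleton _
  rintro ⟨p⟩
  exact hxm.2 (key _ _ p hxm.1)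

end Pool.Agent.Helper47.FRC.BRG
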